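import Mathlib

set_option autoImplicit false

namespace Pool.Agent.Results.MP_3e89d2_lc.Counterexample

open Finset

abbrev Ω (n : ℕ) := Fin n → Bool

/-- Probability distributions on the cube. -/
def IsDist {n : ℕ} (P : Ω n → ℝ) : Prop := (∀ x, 0 ≤ P x) ∧ ∑ x, P x = 1

/-- Relative Hamming distance. -/
noncomputable def Δ {n : ℕ} (x y : Ω n) : ℝ := hammingDist x y / n

/-- Earth mover's distance: the least cost of a coupling. -/
noncomputable def emd {n : ℕ} (P Q : Ω n → ℝ) : ℝ :=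
  sInf {c | ∃ w : Ω n → Ω n → ℝ, (∀ x y, 0 ≤ w x y) ∧ (∀ x, ∑ y, w x y = P x) ∧
    (∀ y, ∑ x, w x y = Q y) ∧ c = ∑ x, ∑ y, w x y * Δ x y}

/-- The distribution of `f` applied to a sample of `P`. -/
def push {n : ℕ} (f : Ω n → Ω n) (P : Ω n → ℝ) : Ω n → ℝ := fun y => ∑ x with f x = y, P x

def ClosedUnderMapping {n : ℕ} (D : Set (Ω n → ℝ)) : Prop := ∀ Y ∈ D, ∀ f, push f Y ∈ D

def Far {n : ℕ} (ε : ℝ) (X : Ω n → ℝ) (D : Set (Ω n → ℝ)) : Prop := ∀ Y ∈ D, ε ≤ emd X Y

variable {n : ℕ}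

theorem Δ_nonneg (x y : Ω n) : 0 ≤ Δ x y := by unfold Δ; positivity

theorem push_dist {P : Ω n → ℝ} (h : IsDist P) (f : Ω n → Ω n) : IsDist (push f P) :=
  ⟨fun _ => sum_nonneg fun x _ => h.1 x, (sum_fiberwise univ f P).trans h.2⟩

theorem emd_push {P : Ω n → ℝ} (h : IsDist P) (f g : Ω n → Ω n) :
    emd (push f P) (push g P) ≤ ∑ x, P x * Δ (f x) (g x) := by
  refine csInf_le ⟨0, ?_⟩ ⟨fun a b => ∑ x, if f x = a ∧ g x = b then P x else 0,
    fun a b => sum_nonneg fun x _ => by split_ifs; exacts [h.1 x, le_rfl], fun a => ?_,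
    fun b => ?_, ?_⟩
  · rintro _ ⟨w, h1, -, -, rfl⟩
    exact sum_nonneg fun _ _ => sum_nonneg fun _ _ => mul_nonneg (h1 _ _) (Δ_nonneg _ _)
  · rw [sum_comm, push, sum_filter]
    simp [ite_and]
  · rw [sum_comm, push, sum_filter]
    simp [ite_and]
  · simp only [sum_mul, ite_and, ite_mul, zero_mul]
    rw [eq_comm, sum_congr rfl fun _ _ => sum_comm, sum_comm]
    simp

theorem le_emd {P Q : Ω n → ℝ} (hP : IsDist P) (hQ : IsDist Q) (z : Ω n) {δ : ℝ} (hδ : 0 ≤ δ)
    (h : ∀ x, x ≠ z → P x ≠ 0 → δ ≤ Δ x z) : δ * (Q z - P z) ≤ emd P Q := by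
  refine le_csInf ⟨_, fun x y => P x * Q y, fun x y => mul_nonneg (hP.1 x) (hQ.1 y),
    fun x => by rw [← mul_sum, hQ.2, mul_one], fun y => by rw [← sum_mul, hP.2, one_mul], rfl⟩ ?_
  rintro _ ⟨w, h1, h2, h3, rfl⟩
  have h4 : ∀ x y, w x y ≤ P x := fun x y => h2 x ▸ single_le_sum (fun y _ => h1 x y) (mem_univ y)
  calc δ * (Q z - P z) ≤ δ * ∑ x ∈ univ.erase z, w x z := by
        rw [← h3, ← add_sum_erase _ _ (mem_univ z)]
        exact mul_le_mul_of_nonneg_left (by linarith [h4 z z]) hδ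
    _ ≤ ∑ x ∈ univ.erase z, w x z * Δ x z := by
        rw [mul_sum]
        refine sum_le_sum fun x hx => ?_
        rcases eq_or_ne (P x) 0 with h5 | h5
        · rw [((h4 x z).trans h5.le).antisymm (h1 x z), mul_zero, zero_mul]
        · rw [mul_comm]
          exact mul_le_mul_of_nonneg_left (h x (ne_of_mem_erase hx) h5) (h1 x z)
    _ ≤ ∑ x, w x z * Δ x z := sum_le_sum_of_subset_of_nonneg (erase_subset _ _)
        fun x _ _ => mul_nonneg (h1 _ _) (Δ_nonneg _ _)
    _ ≤ _ := sum_le_sum fun x _ => single_le_sum (f := fun y => w x y * Δ x y)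
        (fun y _ => mul_nonneg (h1 _ _) (Δ_nonneg _ _)) (mem_univ z)

theorem count {α : Type} [Fintype α] [DecidableEq α] (o : α) (s : α → α) (hs : ∀ x, s x ≠ x)
    (B : Finset α) (hB : o ∉ B) (h : Fintype.card α ≤ 2 * #B) :
    Fintype.card (Equiv.Perm α) ≤ 2 * #{π : Equiv.Perm α | π.symm (s (π o)) ∈ B} := by
  have h1 : ∀ y ≠ o, ∀ z ≠ o, #{π : Equiv.Perm α | π.symm (s (π o)) = y} =
      #{π : Equiv.Perm α | π.symm (s (π o)) = z} := fun y hy z hz =>
    card_equiv (Equiv.mulRight (Equiv.swap y z)) fun π => by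
      simp [Equiv.symm_apply_eq, Equiv.swap_apply_of_ne_of_ne hy.symm hz.symm]
  obtain ⟨y, hy⟩ : B.Nonempty := by
    have : Nonempty α := ⟨o⟩
    have := Fintype.card_pos (α := α)
    exact card_pos.mp (by omega)
  have h2 := card_eq_sum_card_fiberwise (f := fun π : Equiv.Perm α => π.symm (s (π o)))
    (s := univ) (t := univ.erase o) fun π _ => by simpa [Equiv.symm_apply_eq] using hs _
  rw [sum_const_nat fun z hz => h1 z (ne_of_mem_erase hz) y (ne_of_mem_of_not_mem hy hB)] at h2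
  rw [← sum_card_fiberwise_eq_card_filter, sum_const_nat fun z hz =>
    h1 z (ne_of_mem_of_not_mem hz hB) y (ne_of_mem_of_not_mem hy hB), ← card_univ, h2,
    ← mul_assoc]
  exact Nat.mul_le_mul_right _ ((card_le_univ _).trans h)

open Classical in
theorem result (c : ℝ) (hc : 0 < c) : ∃ N, ∀ n ≥ N, ∃ (D : Set (Ω n → ℝ)) (X : Ω n → ℝ) (ε : ℝ),
    (∀ Y ∈ D, IsDist Y) ∧ ClosedUnderMapping D ∧ IsDist X ∧ 0 < ε ∧ Far ε X D ∧
    Fintype.card (Equiv.Perm (Ω n)) ≤
      2 * #{π : Equiv.Perm (Ω n) | ¬ Far (c * ε) (push π X) D} := by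
  obtain ⟨N, hN⟩ := exists_nat_gt (2 / c)
  refine ⟨N + 1, fun n hn => ?_⟩
  have hn0 : (0 : ℝ) < n := by exact_mod_cast (by omega : 0 < n)
  let o : Ω n := fun _ => false
  let B : Finset (Ω n) := {x | n ≤ 2 * hammingDist x o}
  have h1 : o ∉ B := by simp [B]; omega
  have h2 : Fintype.card (Ω n) ≤ 2 * #B := by
    have := card_le_card_of_injOn (s := Bᶜ) (t := B) (fun x i => !x i) (fun x hx => by
      have h3 := card_filter_add_card_filter_not (s := univ) fun i => x i ≠ o i
      simp only [B, o, hammingDist, coe_compl, coe_filter, mem_univ, true_and, Set.mem_compl_iff,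
        Set.mem_ofPred_eq, card_univ, Fintype.card_fin] at hx h3 ⊢
      simp only [ne_eq, Bool.not_eq_false, Bool.not_eq_true, Bool.not_eq_true'] at hx h3 ⊢
      omega) fun x _ y _ h => funext fun i => by simpa using congrFun h i
    have := card_add_card_compl B
    omega
  have h3 : (n : ℝ) ≤ 2 * #B := by
    have := Nat.lt_two_pow_self (n := n)
    rw [Fintype.card_fun, Fintype.card_bool, Fintype.card_fin] at h2
    exact_mod_cast this.le.trans h2
  have h4 : (0 : ℝ) < #B := by linarith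
  set l : ℝ := 1 / (2 * #B) with hl
  have h5 : 0 < l := by positivity
  let X : Ω n → ℝ := fun x => if x = o then 1 / 2 else if x ∈ B then l else 0
  have hX : IsDist X := ⟨fun x => by simp only [X]; split_ifs <;> positivity, by
    rw [← add_sum_erase _ _ (mem_univ o), sum_congr rfl fun x hx => if_neg (ne_of_mem_erase hx),
      sum_erase (f := fun x => if x ∈ B then l else 0) _ (if_neg h1), sum_ite_mem, univ_inter, sum_const, nsmul_eq_mul, hl]
    simp only [X, if_true]
    field_simp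
    norm_num⟩
  refine ⟨{Y | IsDist Y ∧ ∃ z, 1 / 2 + l ≤ Y z}, X, l / 2, fun _ h => h.1, ?_, hX, by positivity,
    ?_, (count o (fun x => Function.update x ⟨0, by omega⟩ (!x ⟨0, by omega⟩))
      (fun x h => by simpa using congrFun h ⟨0, by omega⟩) B h1 h2).trans
      (Nat.mul_le_mul_left _ (card_le_card fun π hπ => ?_))⟩
  · rintro Y ⟨h6, z, h7⟩ f
    exact ⟨push_dist h6 f, f z, h7.trans (single_le_sum (fun x _ => h6.1 x) (by simp))⟩
  · rintro Y ⟨h6, z, h7⟩
    rcases eq_or_ne z o with rfl | h8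
    · refine le_trans ?_ (le_emd hX h6 o (δ := 1 / 2) (by norm_num) fun x h8 h9 => ?_)
      · simp only [X, if_true]; linarith
      · have : x ∈ B := by by_contra h; simp [X, h8, h] at h9
        rw [Δ, div_le_div_iff₀ two_pos hn0, one_mul, mul_comm]
        exact_mod_cast (mem_filter.mp this).2
    · refine le_trans ?_ (le_emd hX h6 z (δ := 1 / n) (by positivity) fun x h8 _ => ?_)
      · have : X z ≤ l := by simp only [X, if_neg h8]; split_ifs; exacts [le_rfl, h5.le]
        have h9 : l ≤ 1 / n := one_div_le_one_div_of_le hn0 h3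
        nlinarith
      · exact div_le_div_of_nonneg_right (by exact_mod_cast hammingDist_pos.mpr h8) hn0.le
  · simp only [mem_filter, mem_univ, true_and] at hπ ⊢
    generalize hb : π.symm _ = b at hπ
    have h6 : b ≠ o := ne_of_mem_of_not_mem hπ h1
    have h7 : X b = l := by simp [X, h6, hπ]
    refine fun h => (h (push (Function.update π b (π o)) X) ⟨push_dist hX _, π o, ?_⟩).not_gt
      ((emd_push hX _ _).trans_lt ?_)
    · refine le_trans ?_ (sum_le_sum_of_subset_of_nonneg (s := {o, b}) ?_ fun x _ _ => hX.1 x)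
      · rw [sum_pair h6.symm, h7]; simp [X]
      · simp [insert_subset_iff, Function.update_of_ne h6.symm]
    · rw [sum_eq_single b (fun x _ h => by simp [Function.update_of_ne h, Δ]) (by simp), h7,
        Function.update_self, ← hb, Equiv.apply_symm_apply, mul_comm,
        show c * (l / 2) = c / 2 * l by ring]
      refine mul_lt_mul_of_pos_right ?_ h5
      have h8 : hammingDist (Function.update (π o) ⟨0, by omega⟩ (!π o ⟨0, by omega⟩)) (π o) ≤ 1 :=
        card_le_one.mpr fun i hi j hj => by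
          have : ∀ k, Function.update (π o) ⟨0, by omega⟩ (!π o ⟨0, by omega⟩) k ≠ π o k →
            k = ⟨0, by omega⟩ := fun k hk => by_contra fun h => hk (Function.update_of_ne h ..)
          rw [this i (mem_filter.mp hi).2, this j (mem_filter.mp hj).2]
      have h9 : (N : ℝ) + 1 ≤ n := by exact_mod_cast hn
      rw [div_lt_iff₀ hc] at hN
      rw [Δ, div_lt_div_iff₀ hn0 two_pos]
      have := (Nat.cast_le (α := ℝ)).mpr h8
      rw [Nat.cast_one] at this
      nlinarith

end Pool.Agent.Results.MP_3e89d2_lc.Counterexample
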